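import Pool.Agent.MVO.StmtsV
import Pool.Agent.Helper34_MVO.GTS

/-!
# Squad MVO, row GVS (adapted from GTS of helper34)
-/

set_option autoImplicit false

namespace Pool.Agent.MVO.H40

open Pool.Agent.Helper14_MV Pool.Agent.Helper2_MV Pool.Agent.MVO Pool.Agent.MVO.H34

/-- one direction of the exchange -/
theorem gvs_aux {k i : ℕ} {T : (ℕ → ℕ) → (ℕ → ℕ) → Prop} (hT : TExt k T) (hD : TDeg k T) {k1 : ℕ}
    {a1 b1 : ℕ → ℕ} (ha : deg k1 a1 = 3) (hb : deg k1 b1 = 2)
    (hno : ∀ f, BMap k1 k f → ¬ T (psh k1 f a1) (psh k1 f b1)) (e e' : ℕ → Bool)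
    (φ : Word →* Word) (m q : Word)
    (h : QV k i T (m * φ (FreeMonoid.ofList (w2 k1 a1 b1 e)) * q)) :
    QV k i T (m * φ (FreeMonoid.ofList (w2 k1 a1 b1 e')) * q) := by
  obtain ⟨g, hg⟩ : ∃ g : ℕ → List ℕ, g = fun c => (φ (FreeMonoid.of c)).toList := ⟨_, rfl⟩
  have hW : ∀ e, (m * φ (FreeMonoid.ofList (w2 k1 a1 b1 e)) * q).toList =
      m.toList ++ (w2 k1 a1 b1 e).flatMap g ++ q.toList := by
    intro e
    rw [FreeMonoid.toList_mul, FreeMonoid.toList_mul, toList_hom, hg, FreeMonoid.toList_ofList]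
  obtain ⟨B, hWB, hB, hTB, hl⟩ := h
  have hTB' := hD _ _ hTB
  have hwk : ∀ c, (asm k B).count c = m.toList.count c + (3 * (g 0).count c +
      2 * (g 1).count c + ((seps k1).flatMap g).count c) + q.toList.count c := by
    intro c
    rw [← hWB, hW, List.count_append, List.count_append, count_flatMap_split, (count_w2 _ _ _ _).1,
      (count_w2 _ _ _ _).2, ha, hb]
    have h3 : (w2 k1 a1 b1 e).filter (fun c => decide (2 ≤ c)) = seps k1 :=
      filter_ge fun j _ c hc => mem_bl hc
    rw [h3]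
  have hc0 : (asm k B).count 0 = 3 := by
    rw [count_asm (ns01 (Or.inl rfl))]
    exact hTB'.1
  have hc1 : (asm k B).count 1 = 2 := by
    rw [count_asm (ns01 (Or.inr rfl))]
    exact hTB'.2
  have g0 : g 0 = [] ∨ g 0 = [0] := by
    refine list_eq_of_count (fun c hc => ?_) ?_
    · have h3 := hwk c
      by_cases h4 : c = 1
      · rw [h4] at h3 ⊢
        omega
      · have h5 := count_le_of_mem hB (c := c) (by omega)
        omega
    · have h3 := hwk 0
      omega
  have heq : (g 0 = [] ∨ g 1 = []) → QV k i T (m * φ (FreeMonoid.ofList (w2 k1 a1 b1 e')) * q) := by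
    intro hg01
    have h3 : (m * φ (FreeMonoid.ofList (w2 k1 a1 b1 e')) * q) =
        (m * φ (FreeMonoid.ofList (w2 k1 a1 b1 e)) * q) := by
      apply FreeMonoid.toList.injective
      rw [hW, hW, w2_flatMap hg01 k1 a1 b1 e' e]
    rw [h3]
    exact ⟨B, hWB, hB, hTB, hl⟩
  rcases g0 with g0 | g0
  · exact heq (Or.inl g0)
  · have g1 : g 1 = [] ∨ g 1 = [1] := by
      refine list_eq_of_count (fun c hc => ?_) ?_
      · have h3 := hwk c
        by_cases h4 : c = 0
        · rw [h4, g0] at h3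
          rw [h4]
          simp at h3
          omega
        · have h5 := count_le_of_mem hB (c := c) (by omega)
          omega
      · have h3 := hwk 1
        omega
    rcases g1 with g1 | g1
    · exact heq (Or.inr g1)
    · exfalso
      obtain ⟨f, hf, hcount⟩ := blocks_of (B1 := fun j => bl (a1 j) (b1 j) (e j)) hB
        (fun j _ c hc => mem_bl hc) (M := m.toList) (Q := q.toList) (g := g)
        (by rw [← hWB, hW]; rfl) g0 g1
        (by
          rw [hc0, ← ha]
          exact (count_w2 k1 a1 b1 e).1.symm)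
        (by
          rw [hc1, ← hb]
          exact (count_w2 k1 a1 b1 e).2.symm)
      refine hno f hf (hT _ _ _ _ (fun j hj => ?_) (fun j hj => ?_) hTB)
      · rw [hcount j hj 0]
        simp only [(count_bl _ _ _).1]
      · rw [hcount j hj 1]
        simp only [(count_bl _ _ _).2]

/-- **GVS** -/
theorem gvs : GvsStmt := by
  intro k i T hT hD k1 a1 b1 ha hb hno i1 e φ m q
  exact ⟨gvs_aux hT hD ha hb hno _ _ φ m q, gvs_aux hT hD ha hb hno _ _ φ m q⟩

end Pool.Agent.MVO.H40
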