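import Pool.Agent.MVO.StmtsV
import Pool.Agent.Helper43_MVO.NCommon

/-!
# MVO row NV2 (second clause of class Va over `O1`, first part)
-/

set_option autoImplicit false

namespace Pool.Agent.MVO.H40

open Pool.Agent.MVO Pool.Agent.Helper14_MV Pool.Agent.Helper2_MV
open Pool.Agent.MVO.H43

namespace Nv2

/-- the type of the second letter -/
def Yv (y : ℕ → ℕ) : Prop := y 0 = 1 ∧ y 1 = 0 ∧ y 2 = 0 ∧ y 3 = 1

/-- the first set of pairs -/
def T1 (x y : ℕ → ℕ) : Prop := (x 0 = 0 ∧ x 1 = 1 ∧ x 2 = 1 ∧ x 3 = 1) ∧ Yv y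

/-- the second set of pairs -/
def T2 (x y : ℕ → ℕ) : Prop :=
  Yv y ∧ x 0 = 0 ∧ 1 ≤ x 1 ∧ 1 ≤ x 3 ∧ x 1 + x 2 + x 3 = 3

theorem t1_ext : TExt 3 T1 := by
  intro a a' b b' ha hb h
  obtain ⟨⟨h0, h1, h2, h3⟩, g0, g1, g2, g3⟩ := h
  have e0 := ha 0 (by omega); have e1 := ha 1 (by omega); have e2 := ha 2 (by omega)
  have e3 := ha 3 (by omega)
  have f0 := hb 0 (by omega); have f1 := hb 1 (by omega); have f2 := hb 2 (by omega)
  have f3 := hb 3 (by omega)
  exact ⟨⟨by omega, by omega, by omega, by omega⟩, by omega, by omega, by omega, by omega⟩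

theorem t2_ext : TExt 3 T2 := by
  intro a a' b b' ha hb h
  obtain ⟨⟨g0, g1, g2, g3⟩, h1, h2, h3, h4⟩ := h
  have e0 := ha 0 (by omega); have e1 := ha 1 (by omega); have e2 := ha 2 (by omega)
  have e3 := ha 3 (by omega)
  have f0 := hb 0 (by omega); have f1 := hb 1 (by omega); have f2 := hb 2 (by omega)
  have f3 := hb 3 (by omega)
  exact ⟨⟨by omega, by omega, by omega, by omega⟩, by omega, by omega, by omega, by omega⟩

theorem yv_deg {y : ℕ → ℕ} (h : Yv y) : deg 3 y = 2 := by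
  obtain ⟨g0, g1, g2, g3⟩ := h
  rw [deg3]; omega

theorem t1_t2 {x y : ℕ → ℕ} (h : T1 x y) : T2 x y := by
  obtain ⟨⟨h0, h1, h2, h3⟩, hy⟩ := h
  exact ⟨hy, h0, by omega, by omega, by omega⟩

theorem t2_deg : TDeg 3 T2 := by
  intro a b h
  obtain ⟨hy, h1, h2, h3, h4⟩ := h
  exact ⟨by rw [deg3]; omega, yv_deg hy⟩

theorem t1_deg : TDeg 3 T1 := fun a b h => t2_deg a b (t1_t2 h)

theorem t2_mul : TMul 3 3 T2 := by
  intro a b h
  have hd := t2_deg a b h
  obtain ⟨⟨g0, g1, g2, g3⟩, h1, h2, h3, h4⟩ := h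
  exact ⟨by omega, by omega, by omega, by omega⟩

theorem t1_mul : TMul 3 3 T1 := fun a b h => t2_mul a b (t1_t2 h)

theorem yv_iso (hISO : IsoStmt) {β : FIC} (hth : β ≤ thC3) (hi : Iso3 β) {y y' : ℕ → ℕ}
    (hy : Yv y) (h : L1 β 3 y y') : Yv y' := by
  have hy' := hy
  obtain ⟨g0, g1, g2, g3⟩ := hy
  have h1 := hISO β hth hi 3 y y' (yv_deg hy') (by
    intro j hj
    interval_cases j <;> omega) h
  have e0 := h1 0 (by omega); have e1 := h1 1 (by omega); have e2 := h1 2 (by omega)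
  have e3 := h1 3 (by omega)
  exact ⟨by omega, by omega, by omega, by omega⟩

theorem deg_v3 (a b c : ℕ) : deg 2 (v3 a b c) = a + b + c := by
  rw [deg2]; rfl

theorem v3_0 (a b c : ℕ) : v3 a b c 0 = a := rfl

theorem v3_2 (a b c : ℕ) : v3 a b c 2 = c := rfl

theorem p0012 (x : ℕ → ℕ) : psh 3 (fl [0, 0, 1, 2]) x = v3 (x 0 + x 1) (x 2) (x 3) := by
  funext l
  rw [psh3]
  rcases l with _ | _ | _ | l <;> simp [fl, v3]

theorem psh_0201 (f : ℕ → ℕ) (l : ℕ) : psh 3 f (v4 0 2 0 1) l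
    = (if f 1 = l then 2 else 0) + (if f 3 = l then 1 else 0) := by
  rw [psh3]; simp [v4]

theorem psh_0111 (f : ℕ → ℕ) (l : ℕ) : psh 3 f (v4 0 1 1 1) l
    = (if f 1 = l then 1 else 0) + (if f 2 = l then 1 else 0) + (if f 3 = l then 1 else 0) := by
  rw [psh3]; simp [v4]

theorem no_psh (f : ℕ → ℕ) (h0 : f 1 ≤ 3) (h1 : psh 3 f (v4 0 2 0 1) 0 = 0)
    (h2 : psh 3 f (v4 0 2 0 1) 1 = 1) (h3 : psh 3 f (v4 0 2 0 1) 2 = 1)
    (h4 : psh 3 f (v4 0 2 0 1) 3 = 1) : False := by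
  have h5 : 2 ≤ psh 3 f (v4 0 2 0 1) (f 1) := by
    rw [psh_0201, if_pos rfl]
    omega
  have hc : f 1 = 0 ∨ f 1 = 1 ∨ f 1 = 2 ∨ f 1 = 3 := by omega
  rcases hc with hc | hc | hc | hc <;> rw [hc] at h5 <;> omega

theorem key (f : ℕ → ℕ) (m12 : f 1 ≤ f 2) (m23 : f 2 ≤ f 3) (m3 : f 3 ≤ 3) :
    (psh 3 f (v4 0 2 0 1) 0 = 0 ∧ 1 ≤ psh 3 f (v4 0 2 0 1) 1 ∧ 1 ≤ psh 3 f (v4 0 2 0 1) 3 ∧
      psh 3 f (v4 0 2 0 1) 1 + psh 3 f (v4 0 2 0 1) 2 + psh 3 f (v4 0 2 0 1) 3 = 3) ↔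
    (psh 3 f (v4 0 1 1 1) 0 = 0 ∧ 1 ≤ psh 3 f (v4 0 1 1 1) 1 ∧ 1 ≤ psh 3 f (v4 0 1 1 1) 3 ∧
      psh 3 f (v4 0 1 1 1) 1 + psh 3 f (v4 0 1 1 1) 2 + psh 3 f (v4 0 1 1 1) 3 = 3) := by
  simp only [psh_0201, psh_0111]
  generalize f 1 = u1 at *
  generalize f 2 = u2 at *
  generalize f 3 = u3 at *
  interval_cases u3 <;> interval_cases u2 <;> interval_cases u1 <;> decide

end Nv2

open Nv2 in
theorem nv2 (hLNN : LnnStmt) (hGVB : GvbStmt) (hGVN : GvnStmt) (hGVS : GvsStmt) (hGVK : GvkStmt)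
    (hGAV : GavStmt) (hRGV : RgvStmt) (hWUA : WuaStmt) (_hOAA : OaaStmt) (hOAR : OarStmt)
    (hISO : IsoStmt) (hFV1 : Fv1Stmt) (hFV4 : Fv4Stmt) : Nv2Stmt := by
  intro β hA hO1 hO3
  by_contra hcon
  rw [not_or] at hcon
  obtain ⟨hII, hb3⟩ := hcon
  have hth := hA.th
  have hi := hA.iso
  have hcl := hA.cl
  have hK := cen_of_cent hA.ce
  have h21 : L1 β 1 (v2 2 1) (v2 1 2) := hO1
  obtain ⟨V0, V2, -⟩ := hFV1 β hcl
  -- the two types with the support `{1,2}`
  have q1 : L1 β 2 (v3 0 2 1) (v3 0 1 2) := by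
    have h1 := l1_push (bmap1 (a := 1) (b := 2) (k' := 2) (by omega) (by omega)) h21
    rw [p12, p12] at h1
    exact h1
  -- a relation of `(0,2,1)` with a type with the blocks 0 and 2
  have hv : ∀ x : ℕ → ℕ, 2 ≤ deg 2 x → 1 ≤ x 0 → 1 ≤ x 2 → Bt β 2 x (v3 1 0 1) 2 := by
    intro x hd h0 h2
    refine V0 2 _ _ 2 hd (by decide) (by omega) ?_
    rintro ⟨h3, -⟩
    have h4 := h3 0 (by omega) (by omega)
    rcases h4 with h4 | h4
    · omega
    · simp [v3] at h4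
  have hb3' : ∀ x : ℕ → ℕ, 2 ≤ deg 2 x → 1 ≤ x 0 → 1 ≤ x 2 → ¬ L1 β 2 (v3 0 2 1) x := by
    intro x hd h0 h2 h
    exact hb3 (V2 2 _ _ _ 2 h (hv x hd h0 h2))
  -- not `O2`
  have hO2 : ¬ O2 (FC.ofFIC β) := by
    intro h
    have h12 : L1 β 1 (v2 1 2) (v2 0 3) := h
    have h1 := l1_push (bmap1 (a := 0) (b := 2) (k' := 2) (by omega) (by omega)) h12
    have h2 := l1_push (bmap1 (a := 1) (b := 2) (k' := 2) (by omega) (by omega)) h12
    rw [p02, p02] at h1
    rw [p12, p12] at h2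
    have h3 : (v3 0 0 3 : ℕ → ℕ) = v3 0 0 3 := rfl
    exact hb3' (v3 1 0 2) (by decide) (by decide) (by decide)
      (l1_trans q1 (l1_trans h2 (l1_symm h1)))
  -- a relation which changes the degree
  have hW : ∀ x x' : ℕ → ℕ, deg 3 x = 3 → L1 β 3 x x' → deg 3 x' ≠ 3 → L1 β 3 x (sg 0 3) := by
    intro x x' hd h hne
    have h1 := (hWUA (FC.ofFIC β) hO1 hK 3 x x' (by omega) (by omega) h).1 0 (by omega)
    rw [hd] at h1
    exact h1
  -- relations of the types of `T2`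
  have hU : ∀ x z : ℕ → ℕ, (x 0 = 0 ∧ 1 ≤ x 1 ∧ 1 ≤ x 3 ∧ x 1 + x 2 + x 3 = 3) →
      z 0 + z 1 + z 2 + z 3 = 3 → ¬ (z 0 = 0 ∧ 1 ≤ z 1 ∧ 1 ≤ z 3) →
      L1 β 3 x z → False := by
    intro x z hx hz hzc h
    obtain ⟨x0, x1, x3, xs⟩ := hx
    by_cases hz3 : z 3 = 0
    · have h1 := l1_push (bmap3 (a := 0) (b := 0) (c := 0) (d := 1) (k' := 1) (by omega)
        (by omega) (by omega) (by omega)) h
      rw [p0001, p0001, hz3] at h1
      have e : z 0 + z 1 + z 2 = 3 := by omega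
      rw [e] at h1
      exact hO3 (o3_of_rel hO1 (by omega) (by omega) h1 (Or.inr (by omega)))
    · by_cases hz0 : 1 ≤ z 0
      · have h1 := l1_push (bmap3 (a := 0) (b := 1) (c := 1) (d := 2) (k' := 2) (by omega)
          (by omega) (by omega) (by omega)) h
        rw [p0112, p0112, x0] at h1
        have hd : 2 ≤ deg 2 (v3 (z 0) (z 1 + z 2) (z 3)) := by
          rw [deg_v3]; omega
        have hcase : x 3 = 1 ∨ x 3 = 2 := by omega
        rcases hcase with hc | hc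
        · have e : x 1 + x 2 = 2 := by omega
          rw [e, hc] at h1
          refine hb3' _ hd ?_ ?_ h1
          · rw [v3_0]; omega
          · rw [v3_2]; omega
        · have e : x 1 + x 2 = 1 := by omega
          rw [e, hc] at h1
          refine hb3' _ hd ?_ ?_ (l1_trans q1 h1)
          · rw [v3_0]; omega
          · rw [v3_2]; omega
      · have hz0' : z 0 = 0 := by omega
        have hz1 : z 1 = 0 := by
          by_contra hne
          exact hzc ⟨hz0', by omega, by omega⟩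
        by_cases hz2 : z 2 = 0
        · -- `z = (0,0,0,3)`
          have h1 := l1_push (bmap3 (a := 0) (b := 0) (c := 0) (d := 1) (k' := 1) (by omega)
            (by omega) (by omega) (by omega)) h
          rw [p0001, p0001] at h1
          have e : z 0 + z 1 + z 2 = 0 := by omega
          have e' : z 3 = 3 := by omega
          rw [e, e', x0] at h1
          have hcase : x 3 = 1 ∨ x 3 = 2 := by omega
          rcases hcase with hc | hc
          · have e : 0 + x 1 + x 2 = 2 := by omega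
            rw [e, hc] at h1
            exact hO2 (l1_trans (l1_symm h21) h1)
          · have e : 0 + x 1 + x 2 = 1 := by omega
            rw [e, hc] at h1
            exact hO2 h1
        · have h1 := l1_push (bmap3 (a := 0) (b := 0) (c := 1) (d := 2) (k' := 2) (by omega)
            (by omega) (by omega) (by omega)) h
          rw [p0012, p0012, x0, hz0', hz1] at h1
          have hd : 2 ≤ deg 2 (v3 (0 + x 1) (x 2) (x 3)) := by
            rw [deg_v3]; omega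
          have hcase : (z 2 = 2 ∧ z 3 = 1) ∨ (z 2 = 1 ∧ z 3 = 2) := by omega
          rcases hcase with ⟨hc, hc'⟩ | ⟨hc, hc'⟩
          · rw [hc, hc'] at h1
            refine hb3' _ hd ?_ ?_ (l1_symm h1)
            · rw [v3_0]; omega
            · rw [v3_2]; omega
          · rw [hc, hc'] at h1
            refine hb3' _ hd ?_ ?_ (l1_trans q1 (l1_symm h1))
            · rw [v3_0]; omega
            · rw [v3_2]; omega
  -- relations of the type `(0,1,1,1)`
  have hV : ∀ x z : ℕ → ℕ, (x 0 = 0 ∧ x 1 = 1 ∧ x 2 = 1 ∧ x 3 = 1) → deg 3 z = 3 →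
      ¬ (z 0 = 0 ∧ z 1 = 1 ∧ z 2 = 1 ∧ z 3 = 1) → L1 β 3 x z → False := by
    intro x z hx hz hne h
    obtain ⟨x0, x1, x2, x3⟩ := hx
    have hspx : sp 3 x = {1, 2, 3} := by
      ext j
      rw [mem_sp]
      simp only [Finset.mem_insert, Finset.mem_singleton]
      constructor
      · rintro ⟨h1, h2⟩
        by_contra hc
        have hj : j = 0 := by omega
        subst hj
        exact h2 x0
      · rintro (rfl | rfl | rfl) <;> constructor <;> omega
    have hsp : sp 3 x ≠ sp 3 z := by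
      intro he
      apply hne
      rw [hspx] at he
      have m0 : (1 : ℕ) ∈ sp 3 z := by rw [← he]; simp
      have m1 : (2 : ℕ) ∈ sp 3 z := by rw [← he]; simp
      have m2 : (3 : ℕ) ∈ sp 3 z := by rw [← he]; simp
      rw [mem_sp] at m0 m1 m2
      rw [deg3] at hz
      have := m0.2; have := m1.2; have := m2.2
      exact ⟨by omega, by omega, by omega, by omega⟩
    have hdx : deg 3 x = 3 := by rw [deg3]; omega
    have h1 := (hOAR (FC.ofFIC β) 3 x z (Or.inl hO1) (by omega) (by omega) h hsp).1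
    have hcard : (sp 3 x).card = 3 := by rw [hspx]; rfl
    rw [hdx] at h1
    have s1 : sp 2 (v3 1 1 1) = {0, 1, 2} := by decide
    have s2 : sp 2 (v3 2 0 1) = {0, 2} := by decide
    apply hII
    refine h1 2 (v3 1 1 1) (v3 2 0 1) (by decide) (by decide) ?_ ?_ ?_ ?_
    · rw [s1]
      refine le_trans ?_ (le_max_left _ _)
      rw [hcard]; decide
    · rw [s2]
      refine le_trans ?_ (le_max_left _ _)
      rw [hcard]; decide
    · rw [s1, s2]; decide
    · rw [s1, s2]; decide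
  -- no exchange
  have hnx : ∀ x y : ℕ → ℕ, T2 x y → ¬ Bt β 3 x y 3 := by
    intro x y hT hBt
    have hd := t2_deg x y hT
    obtain ⟨⟨g0, g1, g2, g3⟩, h0, h1, h3, hs⟩ := hT
    have h4 := hFV4 β hcl 3 2 (fl [0, 1, 1, 2]) x y (v3 0 (x 1 + x 2) (x 3)) (v3 1 0 1) 3
      (bmap3 (by omega) (by omega) (by omega) (by omega)) (by omega) h3 (by omega) (by omega)
      (by omega) (by
        intro l hl h2l hfl
        omega) (by
        intro j hj
        rw [p0112, h0]) (by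
        intro j hj
        rw [p0112, g0, g1, g2, g3]) hBt
    have h5 : Bt β 2 (v3 0 (x 1 + x 2) (x 3)) (v3 1 0 1) 2 := h4
    have hcase : x 3 = 1 ∨ x 3 = 2 := by omega
    rcases hcase with hc | hc
    · have e : x 1 + x 2 = 2 := by omega
      rw [e, hc] at h5
      exact hb3 h5
    · have e : x 1 + x 2 = 1 := by omega
      rw [e, hc] at h5
      exact hb3 (V2 2 _ _ _ _ q1 h5)
  -- the congruences
  have hG1 : β ≤ GV 3 3 T1 := by
    refine hGVB β hth (nc2_of_iso3 hi) hcl 3 3 T1 (by omega) t1_ext t1_mul ?_ ?_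
    · intro a b a' b' hT ha hb
      refine ⟨?_, yv_iso hISO hth hi hT.2 hb⟩
      by_contra hne
      have hda : deg 3 a = 3 := by
        obtain ⟨⟨h0, h1, h2, h3⟩, -⟩ := hT
        rw [deg3]; omega
      by_cases hd : deg 3 a' = 3
      · exact hV a a' hT.1 hd hne ha
      · exact hV a (sg 0 3) hT.1 (by decide) (by simp [sg]) (hW a a' hda ha hd)
    · intro a b hT hBt
      exact hnx a b (t1_t2 hT) hBt
  have hG2 : β ≤ GV 3 3 T2 := by
    refine hGVB β hth (nc2_of_iso3 hi) hcl 3 3 T2 (by omega) t2_ext t2_mul ?_ hnx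
    intro a b a' b' hT ha hb
    obtain ⟨hy, hx⟩ := hT
    have hda : deg 3 a = 3 := by rw [deg3]; omega
    have hd : deg 3 a' = 3 := by
      by_contra hd
      exact hU a (sg 0 3) hx (by simp [sg]) (by simp [sg]) (hW a a' hda ha hd)
    have hs' : a' 0 + a' 1 + a' 2 + a' 3 = 3 := by rw [← deg3]; exact hd
    by_cases hc : a' 0 = 0 ∧ 1 ≤ a' 1 ∧ 1 ≤ a' 3
    · exact ⟨yv_iso hISO hth hi hy hb, hc.1, hc.2.1, hc.2.2, by omega⟩
    · exact absurd ha (fun h => hU a a' hx hs' hc h)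
  -- the exchange in `G1`
  have hBt1 : Bt (GV 3 3 T1) 3 (v4 0 2 0 1) (v4 1 0 0 1) 3 := by
    refine hGVS 3 3 T1 t1_ext t1_deg 3 _ _ (by decide) (by decide) ?_ 3
    intro f hf hT
    obtain ⟨⟨h0, h1, h2, h3⟩, -⟩ := hT
    exact no_psh f (hf.le 1 (by omega)) h0 h1 h2 h3
  -- the type change in `G2`
  have hL2 : L1 (GV 3 3 T2) 3 (v4 0 2 0 1) (v4 0 1 1 1) := by
    refine hGVK 3 3 3 T2 (by omega) t2_ext t2_deg t2_mul ?_ 3 3 _ _
      (by decide) (by decide) (by decide) (by unfold Occ; decide) (by unfold Occ; decide) ?_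
    · intro a b hT
      obtain ⟨hy, h0, h1, h3, hs⟩ := hT
      simp only [Finset.sum_range_succ, Finset.sum_range_zero]
      omega
    intro f hf b
    have hk := key f (hf.mono 1 2 (by omega) (by omega)) (hf.mono 2 3 (by omega) (by omega))
      (hf.le 3 (by omega))
    constructor
    · rintro ⟨h1, h2⟩
      exact ⟨h1, hk.mp h2⟩
    · rintro ⟨h1, h2⟩
      exact ⟨h1, hk.mpr h2⟩
  have hfin := hLNN β hth (nc2_of_iso3 hi) (hGAV β hcl.1) (hRGV β hcl) hA.md _ _ hG1 hG2 3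
    (v4 0 2 0 1) (v4 0 1 1 1) (v4 1 0 0 1) 3 (by decide) (by decide) (by decide) (by omega)
    hBt1 hL2
  rcases hfin with h | h
  · exact hGVN 3 3 T1 (by omega) t1_ext t1_mul _ _
      ⟨⟨rfl, rfl, rfl, rfl⟩, rfl, rfl, rfl, rfl⟩ h
  · exact hGVN 3 3 T2 (by omega) t2_ext t2_mul _ _
      ⟨⟨rfl, rfl, rfl, rfl⟩, rfl, by decide, by decide, by decide⟩ h

end Pool.Agent.MVO.H40
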