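import Pool.Agent.MVO.StmtsL

/-!
# Squad MVO, row TRI: the partition lattice of a set with three elements is modular
-/

namespace Pool.Agent.MVO.H40

open Pool.Agent.MVO

theorem third : ∀ p q a b : Fin 3, p ≠ q → a ≠ p → a ≠ q → b ≠ p → b ≠ q → a = b := by
  decide

theorem tri : TriStmt := by
  intro X r s t u c hr hs ht hu hc hrt hru hstu x y hxy hch
  by_cases hcc : c x = c y
  · exact (hc x y hcc).2.2.2
  by_cases h1 : ∃ z, c z ≠ c x ∧ c z ≠ c y ∧ t x z
  · obtain ⟨z, hz1, hz2, hz3⟩ := h1
    have hall : ∀ p, t x p := by
      intro p
      by_cases e1 : c p = c x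
      · exact (hc x p e1.symm).2.2.1
      · by_cases e2 : c p = c y
        · exact ht.trans hxy (hc y p e2.symm).2.2.1
        · exact ht.trans hz3 (hc z p (third _ _ _ _ hcc hz1 hz2 e1 e2)).2.2.1
    have key : ∀ q, Relation.ReflTransGen (fun a b => r a b ∨ s a b) x q → u x q := by
      intro q hq
      induction hq with
      | refl => exact hu.refl _
      | tail _ hstep ih =>
        rcases hstep with h | h
        · exact hu.trans ih (hru _ _ h)
        · exact hu.trans ih (hstu _ _ h (ht.trans (ht.symm (hall _)) (hall _)))
    exact key y hch
  · by_cases h2 : r x y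
    · exact hru _ _ h2
    · have hstep : ∀ a b, r a b → c a = c b := by
        intro a b hab
        by_contra hne
        have hcls : ∀ p q, r p q → c p ≠ c q → c q ≠ c x → c q ≠ c y → False := by
          intro p q hpq hpq' hq1 hq2
          apply h1
          refine ⟨q, hq1, hq2, ?_⟩
          by_cases e1 : c p = c x
          · exact ht.trans (hc x p e1.symm).2.2.1 (hrt _ _ hpq)
          · by_cases e2 : c p = c y
            · exact ht.trans hxy (ht.trans (hc y p e2.symm).2.2.1 (hrt _ _ hpq))
            · exact absurd (third _ _ _ _ hcc e1 e2 hq1 hq2) hpq'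
        by_cases a1 : c a = c x
        · by_cases b2 : c b = c y
          · exact h2 (hr.trans (hc x a a1.symm).1 (hr.trans hab (hc b y b2).1))
          · by_cases b1 : c b = c x
            · exact hne (a1.trans b1.symm)
            · exact hcls a b hab hne b1 b2
        · by_cases a2 : c a = c y
          · by_cases b1 : c b = c x
            · exact h2 (hr.trans (hc x b b1.symm).1 (hr.trans (hr.symm hab) (hc a y a2).1))
            · by_cases b2 : c b = c y
              · exact hne (a2.trans b2.symm)
              · exact hcls a b hab hne b1 b2
          · exact hcls b a (hr.symm hab) (fun h => hne h.symm) a1 a2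
      have key : ∀ q, Relation.ReflTransGen (fun a b => r a b ∨ s a b) x q → s x q := by
        intro q hq
        induction hq with
        | refl => exact hs.refl _
        | tail _ hst ih =>
          rcases hst with h | h
          · exact hs.trans ih (hc _ _ (hstep _ _ h)).2.1
          · exact hs.trans ih h
      exact hstu _ _ (key y hch) hxy

end Pool.Agent.MVO.H40
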